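import Pool.Agent.TH612.GS.Stm

/-! GS-MVD: dual of the mean value theorem, and the second moment of short Dirichlet polynomials. -/

set_option autoImplicit false

namespace Pool.Agent.TH503.GS

open Complex Filter Topology MeasureTheory Set
open Pool.Agent.TH612.GS

noncomputable section

private theorem cont_pow {n : ℕ} (hn : 1 ≤ n) : Continuous fun t : ℝ => (n : ℂ) ^ (-(I * (t : ℂ))) := by
  refine Continuous.const_cpow (by fun_prop) (Or.inl ?_)
  exact_mod_cast (by omega : n ≠ 0)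

theorem t_MVD (h : S_MV) : S_MVD := by
  obtain ⟨C, hC, h⟩ := h
  refine ⟨C, hC, ?_⟩
  intro T S X R hT hS hST hX hR
  set c : ℕ → ℂ := fun n => ∫ t in (0:ℝ)..S, R t * (n : ℂ) ^ (-(I * t)) with hc
  set w : ℕ → ℝ := fun n => 1 / (T + n) with hw
  have hTn : ∀ n : ℕ, 0 < T + n := fun n => by positivity
  set Q : ℝ := ∑ n ∈ Finset.Icc 1 X, ‖c n‖ ^ 2 / (T + n) with hQ
  set A : ℝ → ℂ := fun t => ∑ n ∈ Finset.Icc 1 X,
    ((w n : ℂ) * (starRingEnd ℂ) (c n)) * (n : ℂ) ^ (-(I * t)) with hA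
  have hAc : Continuous A := by
    refine continuous_finsetSum _ fun n hn => ?_
    exact continuous_const.mul (cont_pow (Finset.mem_Icc.1 hn).1)
  -- the bilinear identity
  have h1 : ∫ t in (0:ℝ)..S, R t * A t = (Q : ℂ) := by
    have e : ∀ t, R t * A t = ∑ n ∈ Finset.Icc 1 X,
        ((w n : ℂ) * (starRingEnd ℂ) (c n)) * (R t * (n : ℂ) ^ (-(I * t))) := by
      intro t
      rw [hA]
      simp only
      rw [Finset.mul_sum]
      exact Finset.sum_congr rfl fun n _ => by ring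
    simp_rw [e]
    rw [intervalIntegral.integral_finsetSum]
    · rw [hQ]
      push_cast
      refine Finset.sum_congr rfl fun n _ => ?_
      rw [intervalIntegral.integral_const_mul]
      have e2 : (starRingEnd ℂ) (c n) * c n = ((‖c n‖ ^ 2 : ℝ) : ℂ) := by
        rw [mul_comm, Complex.mul_conj, Complex.normSq_eq_norm_sq]
      change ((w n : ℂ) * (starRingEnd ℂ) (c n)) * c n = _
      rw [mul_assoc, e2]
      simp only [hw]
      push_cast
      ring
    · intro n hn
      refine Continuous.intervalIntegrable ?_ _ _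
      exact continuous_const.mul (hR.mul (cont_pow (Finset.mem_Icc.1 hn).1))
  -- mean value theorem for `A`
  have h2 : ∫ t in (0:ℝ)..S, ‖A t‖ ^ 2 ≤ C * Q := by
    have g1 : ∫ t in (0:ℝ)..S, ‖A t‖ ^ 2 ≤ ∫ t in (0:ℝ)..(2 * T), ‖A t‖ ^ 2 := by
      refine intervalIntegral.integral_mono_interval le_rfl hS (by linarith) ?_ ?_
      · exact Filter.Eventually.of_forall fun t => by positivity
      · exact (hAc.norm.pow 2).intervalIntegrable _ _
    refine g1.trans ((h T X (fun n => (w n : ℂ) * (starRingEnd ℂ) (c n)) hT hX).trans ?_)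
    refine mul_le_mul_of_nonneg_left (le_of_eq ?_) hC.le
    rw [hQ]
    refine Finset.sum_congr rfl fun n _ => ?_
    have g2 : ‖((w n : ℂ) * (starRingEnd ℂ) (c n))‖ = ‖c n‖ / (T + n) := by
      rw [norm_mul, RCLike.norm_conj, Complex.norm_real, Real.norm_of_nonneg]
      · simp only [hw]; ring
      · simp only [hw]; exact one_div_nonneg.2 (hTn n).le
    rw [g2]
    have := (hTn n).ne'
    field_simp
  have h3 : Q ≤ ∫ t in (0:ℝ)..S, (C * ‖R t‖ ^ 2 + ‖A t‖ ^ 2 / C) / 2 := by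
    have g1 : Q ≤ ‖∫ t in (0:ℝ)..S, R t * A t‖ := by
      rw [h1, Complex.norm_real]; exact le_abs_self _
    refine g1.trans ((intervalIntegral.norm_integral_le_integral_norm hS).trans ?_)
    refine intervalIntegral.integral_mono_on hS ?_ ?_ ?_
    · exact ((hR.mul hAc).norm).intervalIntegrable _ _
    · refine Continuous.intervalIntegrable ?_ _ _
      exact (((continuous_const.mul (hR.norm.pow 2)).add ((hAc.norm.pow 2).div_const _))).div_const _
    · intro t _
      rw [norm_mul]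
      have g2 : 0 ≤ (C * ‖R t‖ - ‖A t‖) ^ 2 / C := by positivity
      have g3 : (C * ‖R t‖ - ‖A t‖) ^ 2 / C = C * ‖R t‖ ^ 2 + ‖A t‖ ^ 2 / C - 2 * (‖R t‖ * ‖A t‖) := by
        field_simp
        ring
      linarith
  have h4 : ∫ t in (0:ℝ)..S, (C * ‖R t‖ ^ 2 + ‖A t‖ ^ 2 / C) / 2 =
      (C * (∫ t in (0:ℝ)..S, ‖R t‖ ^ 2) + (∫ t in (0:ℝ)..S, ‖A t‖ ^ 2) / C) / 2 := by
    rw [intervalIntegral.integral_div, intervalIntegral.integral_add,
      intervalIntegral.integral_const_mul, intervalIntegral.integral_div]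
    · exact (continuous_const.mul (hR.norm.pow 2)).intervalIntegrable _ _
    · exact ((hAc.norm.pow 2).div_const _).intervalIntegrable _ _
  have h5 : (∫ t in (0:ℝ)..S, ‖A t‖ ^ 2) / C ≤ Q := by
    rw [div_le_iff₀ hC]; linarith
  rw [h4] at h3
  change Q ≤ _
  linarith

theorem t_SP (h : S_MV) : S_SP := by
  obtain ⟨C, hC, h⟩ := h
  refine ⟨3 * C, 3, by positivity, by norm_num, ?_⟩
  intro T N hT hN hNT
  have hT1 : (1:ℝ) ≤ T := by linarith
  have hlog : 1 ≤ Real.log T := by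
    rw [Real.le_log_iff_exp_le (by linarith)]
    have := Real.exp_one_lt_d9
    linarith
  have e : ∀ u : ℝ, PN N u = ∑ n ∈ Finset.Icc 1 N, (n : ℂ) ^ (-(1 / 2 : ℂ)) * (n : ℂ) ^ (-(I * (u : ℂ))) := by
    intro u
    unfold PN zN
    refine Finset.sum_congr rfl fun n hn => ?_
    have hn0 : (n : ℂ) ≠ 0 := by
      have := (Finset.mem_Icc.1 hn).1
      exact_mod_cast (by omega : n ≠ 0)
    rw [← Complex.cpow_add _ _ hn0]
    congr 1
    ring
  have g1 := h T N (fun n => (n : ℂ) ^ (-(1 / 2 : ℂ))) hT1 (by nlinarith)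
  simp_rw [e]
  refine g1.trans ?_
  have g2 : ∑ n ∈ Finset.Icc 1 N, (T + n) * ‖(n : ℂ) ^ (-(1 / 2 : ℂ))‖ ^ 2 ≤
      3 * (T * Real.log T) := by
    have g3 : ∀ n ∈ Finset.Icc 1 N, (T + n) * ‖(n : ℂ) ^ (-(1 / 2 : ℂ))‖ ^ 2 =
        T * (n : ℝ)⁻¹ + 1 := by
      intro n hn
      have hn0 : 0 < n := (Finset.mem_Icc.1 hn).1
      have hn0' : (0 : ℝ) < n := by exact_mod_cast hn0
      rw [Complex.norm_natCast_cpow_of_pos hn0, ← Real.rpow_natCast, ← Real.rpow_mul hn0'.le]
      have e3 : (-(1 / 2 : ℂ)).re * ((2 : ℕ) : ℝ) = -1 := by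
        norm_num
      rw [e3, Real.rpow_neg_one]
      field_simp
    rw [Finset.sum_congr rfl g3, Finset.sum_add_distrib, ← Finset.mul_sum]
    have g4 : ∑ n ∈ Finset.Icc 1 N, ((n : ℝ))⁻¹ ≤ 1 + Real.log N := by
      have := harmonic_le_one_add_log N
      rw [harmonic_eq_sum_Icc] at this
      push_cast at this
      exact this
    have g5 : Real.log N ≤ Real.log T :=
      Real.log_le_log (by exact_mod_cast (by omega : 0 < N)) hNT
    have g6 : T * ∑ n ∈ Finset.Icc 1 N, ((n : ℝ))⁻¹ ≤ T * (1 + Real.log T) :=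
      mul_le_mul_of_nonneg_left (by linarith) (by linarith)
    have g7 : ∑ n ∈ Finset.Icc 1 N, (1 : ℝ) = N := by simp
    rw [g7]
    nlinarith
  calc _ ≤ C * (3 * (T * Real.log T)) := mul_le_mul_of_nonneg_left g2 hC.le
    _ = _ := by ring

end

end Pool.Agent.TH503.GS
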